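import Pool.Agent.H447R3.KuB

open CategoryTheory AlgebraicGeometry

universe u v

open Pool.Agent.H914 Pool.Agent.H914.VarClass Pool.Agent.H914.VarClass.Obj Pool.Agent.H447

/-- **The sign conjecture can be tested modulo numerical equivalence.** Let `X` be a smooth proper
variety of dimension `n` over an algebraically closed field and `W` a Weil cohomology theory. The
projector onto the even cohomology of `X` is algebraic if and only if there is a cycle `z` of
codimension `n` on `X × X` which has the same intersection numbers as this projector with all
cycles of codimension `n`, and for which `z ∘ z` is numerically equivalent to `z`. -/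
theorem Pool.Agent.Results.MP_56c18a_ag.NumericalSign.result {k : Type u} [Field k]
    [IsAlgClosed k] {𝒱 : VarClass k} {ops : CycleOps 𝒱} (W : WeilCohomology.{u, v} ops)
    (X : 𝒱.Obj) : SignStd W X ↔ SignNum W X :=
  sign_iff_num
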